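import Pool.Agent.H95.Lk.Rank

set_option autoImplicit false

namespace Pool.Agent.Results.MP_32f1bc_co.LinkedGloballyLinked

open Pool.Agent.H95.Lk

/-- For every dimension `d`, every finite simple graph `G` and every vertex pair `{u, v}`: if
`{u, v}` is linked in `G` in `ℝ^(d+1)`, then `{u, v}` is globally linked in `G` in `ℝ^d`. -/
theorem result {V : Type*} [Finite V] (d : ℕ) (G : SimpleGraph V) (u v : V)
    (h : Linked (d + 1) G u v) : GloballyLinked d G u v :=
  globallyLinked_of_linked d G u v h

end Pool.Agent.Results.MP_32f1bc_co.LinkedGloballyLinked
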